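import Mathlib

/-!
# Towers of abelian covers: definitions

A variety `X` is given as the quotient of a cone in `ℂ^σ` by a group acting diagonally: the common
kernel in `(ℂˣ)^σ` of a group `R ⊆ ℤ^σ` of characters. The elements of `ℤ^σ / R` are classes of line
bundles on `X`; the sections of the class `c` are the polynomials whose monomials are all in `c + R`.
-/

set_option autoImplicit false

namespace Pool.Agent.K3h47.TW

open MvPolynomial

/-- The character `t ↦ ∏ t_i ^ (ρ_i)`. -/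
def character {σ : Type} [Fintype σ] (ρ : σ → ℤ) (t : σ → ℂˣ) : ℂˣ := ∏ i, t i ^ ρ i

/-- The derivative of `Φ` at `p` in the direction `v`. -/
noncomputable def derivative {σ : Type} [Fintype σ] (p v : σ → ℂ) (Φ : MvPolynomial σ ℂ) : ℂ :=
  ∑ i, eval p (pderiv i Φ) * v i

/-- A cone in `ℂ^σ` with a diagonal action of a group. -/
structure Cone (σ : Type) where
  /-- the points of the cone -/
  pt : Set (σ → ℂ)
  /-- `tan p v`: `v` is a tangent vector of the cone at `p` -/
  tan : (σ → ℂ) → (σ → ℂ) → Prop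
  /-- the characters of `(ℂˣ)^σ` which are trivial on the group -/
  R : AddSubgroup (σ → ℤ)
  /-- the degrees of the coordinates -/
  deg : σ → ℚ
  /-- the degrees of the coordinates with respect to `Ω` -/
  om : σ → ℤ
  /-- the canonical class -/
  K : σ → ℤ

section
variable {σ : Type} [Fintype σ]

/-- The degree of a class. -/
def Cone.degree (C : Cone σ) (c : σ → ℤ) : ℚ := ∑ i, (c i : ℚ) * C.deg i

/-- The `Ω`-degree of a class. -/
def Cone.omega (C : Cone σ) (c : σ → ℤ) : ℤ := ∑ i, c i * C.om i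

/-- `t` is an element of the group. -/
def Cone.InGroup (C : Cone σ) (t : σ → ℂˣ) : Prop := ∀ ρ ∈ C.R, character ρ t = 1

/-- `Φ` is a section of the class `c`. -/
def Cone.IsSection (C : Cone σ) (c : σ → ℤ) (Φ : MvPolynomial σ ℂ) : Prop :=
  ∀ m ∈ Φ.support, (fun i => (m i : ℤ)) - c ∈ C.R

/-- The sections of the class `c` have no base point. -/
def Cone.Free (C : Cone σ) (c : σ → ℤ) : Prop :=
  ∀ p ∈ C.pt, ∃ Φ, C.IsSection c Φ ∧ eval p Φ ≠ 0

/-- The sections of the class `c` separate points: two points of the cone give the same point of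
`X` if they are conjugate under the group. -/
def Cone.SeparatesPoints (C : Cone σ) (c : σ → ℤ) : Prop :=
  ∀ p ∈ C.pt, ∀ p' ∈ C.pt, (¬ ∃ t, C.InGroup t ∧ ∀ i, p' i = t i * p i) →
    ∃ Φ, C.IsSection c Φ ∧ eval p Φ = 0 ∧ eval p' Φ ≠ 0

/-- The sections of the class `c` separate tangent vectors: a tangent vector of the cone gives zero
on `X` if it is tangent to the orbit of the group. -/
def Cone.SeparatesTangents (C : Cone σ) (c : σ → ℤ) : Prop :=
  ∀ p ∈ C.pt, ∀ v, C.tan p v →
    (¬ ∃ l : σ → ℂ, (∀ ρ ∈ C.R, ∑ i, (ρ i : ℂ) * l i = 0) ∧ ∀ i, v i = l i * p i) →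
    ∃ Φ, C.IsSection c Φ ∧ eval p Φ = 0 ∧ derivative p v Φ ≠ 0

/-- The line bundle of class `c` is base point free and separates points and tangent vectors. -/
def Cone.VeryAmple (C : Cone σ) (c : σ → ℤ) : Prop :=
  C.Free c ∧ C.SeparatesPoints c ∧ C.SeparatesTangents c

end

/-- The cone over the subvariety `T` of `P^N × P^N'` with the equations `G_j = 0`, of which the
canonical class is `κ` times the hyperplane class of `P^N` plus that of `P^N'`. -/
noncomputable def baseCone (N N' c : ℕ) (G : Fin c → MvPolynomial (Fin (N + 1) ⊕ Fin (N' + 1)) ℂ)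
    (κ : ℤ) : Cone (Fin (N + 1) ⊕ Fin (N' + 1)) where
  pt := {p | (∃ k, p (Sum.inl k) ≠ 0) ∧ (∃ j, p (Sum.inr j) ≠ 0) ∧ ∀ j, eval p (G j) = 0}
  tan p v := ∀ j, derivative p v (G j) = 0
  R :=
    { carrier := {ρ | ∑ k, ρ (Sum.inl k) = 0 ∧ ∑ j, ρ (Sum.inr j) = 0}
      zero_mem' := by simp
      add_mem' := fun {a b} ha hb => by
        simp only [Set.mem_setOf_eq, Pi.add_apply, Finset.sum_add_distrib] at ha hb ⊢
        rw [ha.1, ha.2, hb.1, hb.2]
        simp
      neg_mem' := fun {a} ha => by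
        simp only [Set.mem_setOf_eq, Pi.neg_apply, Finset.sum_neg_distrib] at ha ⊢
        rw [ha.1, ha.2]
        simp }
  deg := Sum.elim (fun _ => 1) (fun _ => 0)
  om := Sum.elim (fun _ => 0) (fun _ => 1)
  K := Sum.elim (Pi.single 0 κ) (Pi.single 0 1)

/-- The data of an abelian cover `X' → X` with the branch divisors `D_i = {F_i = 0}`, where `X` has
dimension `n`. -/
structure Cover {σ : Type} [Fintype σ] (C : Cone σ) (r n : ℕ) where
  /-- the equations of the branch divisors -/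
  F : Fin r → MvPolynomial σ ℂ
  /-- their classes -/
  d : Fin r → σ → ℤ
  sec : ∀ i, C.IsSection (d i) (F i)
  pos : ∀ i, 0 < C.degree (d i)
  om : ∀ i, C.omega (d i) = 0
  /-- the ramification indices -/
  e : Fin r → ℕ
  two : ∀ i, 2 ≤ e i
  /-- the characters which are trivial on the group belonging to `X'` -/
  R : AddSubgroup (σ ⊕ Fin r → ℤ)
  /-- the equations `z_i ^ (e_i) = F_i` are preserved by the group -/
  rel : ∀ i, (Sum.elim (-(d i)) (Pi.single i (e i : ℤ)) : σ ⊕ Fin r → ℤ) ∈ R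
  /-- the group of `X'` is mapped onto the group of `X` -/
  res : ∀ ρ : σ → ℤ, (Sum.elim ρ 0 : σ ⊕ Fin r → ℤ) ∈ R ↔ ρ ∈ C.R
  /-- any `n` of the divisors have a common point -/
  meet : ∀ I : Finset (Fin r), I.card ≤ n → ∃ p ∈ C.pt, ∀ i ∈ I, eval p (F i) = 0
  /-- at most `n` of them pass through a point (normal crossings) -/
  few : ∀ p ∈ C.pt, (Finset.univ.filter (fun i => eval p (F i) = 0)).card ≤ n
  /-- the group of `X'` acts freely -/
  free : ∀ p ∈ C.pt, ∀ z : Fin r → ℂ, (∀ i, z i ^ e i = eval p (F i)) →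
    ∀ t : σ ⊕ Fin r → ℂˣ, (∀ ρ ∈ R, character ρ t = 1) →
      (∀ i, (t (Sum.inl i) : ℂ) * p i = p i) → (∀ i, (t (Sum.inr i) : ℂ) * z i = z i) → t = 1

/-- The cone over the cover. -/
noncomputable def Cover.cone {σ : Type} [Fintype σ] {C : Cone σ} {r n : ℕ} (D : Cover C r n) :
    Cone (σ ⊕ Fin r) where
  pt := {q | (fun i => q (Sum.inl i)) ∈ C.pt ∧
    ∀ i, q (Sum.inr i) ^ D.e i = eval (fun i => q (Sum.inl i)) (D.F i)}
  tan q v := C.tan (fun i => q (Sum.inl i)) (fun i => v (Sum.inl i)) ∧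
    ∀ i, D.e i * q (Sum.inr i) ^ (D.e i - 1) * v (Sum.inr i)
      = derivative (fun i => q (Sum.inl i)) (fun i => v (Sum.inl i)) (D.F i)
  R := D.R
  deg := Sum.elim C.deg (fun i => C.degree (D.d i) / D.e i)
  om := Sum.elim C.om (fun _ => 0)
  K := Sum.elim C.K (fun i => (D.e i : ℤ) - 1)

/-- `C` is obtained from the cone over some `T` in `P^N × P^N'`, with `K_T = κ_0 H + Ω`, by a sequence
of étale and branched abelian covers, and `κ` is `κ_0` plus the number of those branched covers which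
are taken by the rule `cover'`: either `κ` is greater than `-n` there, or there are at most `n` branch
divisors, or the degrees of the classes on the cover are degrees of classes on `X`. -/
inductive Tower (n : ℕ) : ℤ → (σ : Type) → [Fintype σ] → Cone σ → Prop
  | base (κ : ℤ) (N N' c : ℕ) (G : Fin c → MvPolynomial (Fin (N + 1) ⊕ Fin (N' + 1)) ℂ) :
      Tower n κ (Fin (N + 1) ⊕ Fin (N' + 1)) (baseCone N N' c G κ)
  | etale (κ : ℤ) (σ : Type) [Fintype σ] (C : Cone σ) (h : Tower n κ σ C)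
      (R : AddSubgroup (σ → ℤ)) (le : C.R ≤ R) (fin : ∀ ρ ∈ R, ∃ k : ℕ, 0 < k ∧ k • ρ ∈ C.R) :
      Tower n κ σ { C with R := R }
  | cover (κ : ℤ) (σ : Type) [Fintype σ] (C : Cone σ) (h : Tower n κ σ C) (r : ℕ) (D : Cover C r n)
      (hκ : -(n : ℤ) ≤ κ) : Tower n κ (σ ⊕ Fin r) D.cone
  | cover' (κ : ℤ) (σ : Type) [Fintype σ] (C : Cone σ) (h : Tower n κ σ C) (r : ℕ) (D : Cover C r n)
      (hn : 1 ≤ n) (hr : 0 < r)
      (hκ : -(n : ℤ) < κ ∨ r ≤ n ∨ ∀ i, ∃ c : σ → ℤ, C.degree c = C.degree (D.d i) / D.e i) :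
      Tower n (κ + 1) (σ ⊕ Fin r) D.cone

end Pool.Agent.K3h47.TW
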