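import Pool.Agent.K3h47.TW.Step
import Pool.Agent.K3h33.TW.Base
import Pool.Agent.K3h51.TW.Etale
import Pool.Agent.K3h4.TW.Lift
import Pool.Agent.K3h56.TW.Fibre
import Pool.Agent.K3h12.TW.Dat

/-! Towers of abelian covers: the result. -/

set_option autoImplicit false

namespace Pool.Agent.K3h47.TW

open MvPolynomial

theorem inv_of_tower {n : ℕ} {κ : ℤ} {σ : Type} [Fintype σ] {C : Cone σ}
    (h : Tower n κ σ C) : Inv κ C := by
  induction h with
  | base κ N N' c G => exact Pool.Agent.K3h33.TW.t_BASE N N' c G κ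
  | etale κ σ C h R le fin ih => exact Pool.Agent.K3h51.TW.t_ETALE κ σ C ih R le fin
  | cover κ σ C h r D hκ ih =>
    exact step D Pool.Agent.K3h4.TW.t_LIFT Pool.Agent.K3h56.TW.t_FIBRE
      Pool.Agent.K3h12.TW.t_DAT ih hκ
  | cover' κ σ C h r D hn hr hκ ih =>
    exact step_up D Pool.Agent.K3h4.TW.t_LIFT Pool.Agent.K3h56.TW.t_FIBRE
      Pool.Agent.K3h12.TW.t_DAT ih hn hr hκ

theorem tower_veryAmple {n : ℕ} {κ : ℤ} {σ : Type} [Fintype σ] {C : Cone σ}
    (h : Tower n κ σ C) (m : ℕ) (hm : 1 - κ ≤ m) (A : Fin m → σ → ℤ)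
    (hA : ∀ j, 0 < C.degree (A j)) (hA' : ∀ j, C.omega (A j) = 0) :
    C.VeryAmple (C.K + ∑ j, A j) := by
  have hI := inv_of_tower h
  obtain ⟨M, hM, hq, hmain⟩ := hI.main
  have hMpos : (0 : ℚ) < M := by exact_mod_cast Nat.pos_of_ne_zero hM
  have h1 : ∀ j, (1 : ℚ) ≤ M * C.degree (A j) := by
    intro j
    choose q hq using hq
    obtain ⟨x, hx⟩ : ∃ x : ℤ, (M : ℚ) * C.degree (A j) = x := by
      refine ⟨∑ i, A j i * q i, ?_⟩
      rw [Cone.degree, Finset.mul_sum]
      push_cast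
      refine Finset.sum_congr rfl fun i _ => ?_
      rw [← hq i]
      ring
    have h2 : (0 : ℚ) < x := by
      rw [← hx]
      exact mul_pos hMpos (hA j)
    have h3 : (0 : ℤ) < x := by exact_mod_cast h2
    rw [hx]
    exact_mod_cast h3
  have hom : C.omega (C.K + ∑ j, A j) = 1 := by
    have h2 : C.omega (C.K + ∑ j, A j) = C.omega C.K + ∑ j, C.omega (A j) := by
      simp only [Cone.omega, Pi.add_apply, Finset.sum_apply, add_mul, Finset.sum_mul,
        Finset.sum_add_distrib]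
      rw [Finset.sum_comm]
    rw [h2, hI.omK, Finset.sum_eq_zero fun j _ => hA' j]
    simp
  refine (hmain _ hom).2 ?_
  have h2 : (M : ℚ) * C.degree (C.K + ∑ j, A j - C.K) = ∑ j, (M : ℚ) * C.degree (A j) := by
    rw [add_sub_cancel_left, ← Finset.mul_sum]
    congr 1
    simp only [Cone.degree, Finset.sum_apply, Int.cast_sum, Finset.sum_mul]
    rw [Finset.sum_comm]
  rw [h2]
  have h3 : ∑ _j : Fin m, (1 : ℚ) ≤ ∑ j, (M : ℚ) * C.degree (A j) :=
    Finset.sum_le_sum fun j _ => h1 j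
  have h4 : (1 - κ : ℚ) ≤ m := by exact_mod_cast hm
  simp only [Finset.sum_const, Finset.card_univ, Fintype.card_fin, nsmul_eq_mul, mul_one] at h3
  linarith

end Pool.Agent.K3h47.TW
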