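import Pool.Agent.K3h47.TW.Stm
import Pool.Agent.K3h47.FU.Ren

/-! Sections of the classes on a cone. -/

set_option autoImplicit false
set_option linter.unusedSectionVars false

namespace Pool.Agent.K3h47.TW

open MvPolynomial

section
variable {σ : Type} [Fintype σ] {C : Cone σ}

theorem degree_add (c c' : σ → ℤ) : C.degree (c + c') = C.degree c + C.degree c' := by
  rw [Cone.degree, Cone.degree, Cone.degree, ← Finset.sum_add_distrib]
  refine Finset.sum_congr rfl fun i _ => ?_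
  rw [Pi.add_apply]
  push_cast
  ring

theorem degree_sub (c c' : σ → ℤ) : C.degree (c - c') = C.degree c - C.degree c' := by
  rw [Cone.degree, Cone.degree, Cone.degree, ← Finset.sum_sub_distrib]
  refine Finset.sum_congr rfl fun i _ => ?_
  rw [Pi.sub_apply]
  push_cast
  ring

theorem degree_nsmul (k : ℕ) (c : σ → ℤ) : C.degree (k • c) = k * C.degree c := by
  rw [Cone.degree, Cone.degree, Finset.mul_sum]
  refine Finset.sum_congr rfl fun i _ => ?_
  rw [Pi.smul_apply, nsmul_eq_mul]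
  push_cast
  ring

theorem omega_add (c c' : σ → ℤ) : C.omega (c + c') = C.omega c + C.omega c' := by
  rw [Cone.omega, Cone.omega, Cone.omega, ← Finset.sum_add_distrib]
  exact Finset.sum_congr rfl fun i _ => by rw [Pi.add_apply]; ring

theorem omega_sub (c c' : σ → ℤ) : C.omega (c - c') = C.omega c - C.omega c' := by
  rw [Cone.omega, Cone.omega, Cone.omega, ← Finset.sum_sub_distrib]
  exact Finset.sum_congr rfl fun i _ => by rw [Pi.sub_apply]; ring

theorem omega_nsmul (k : ℕ) (c : σ → ℤ) : C.omega (k • c) = k * C.omega c := by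
  rw [Cone.omega, Cone.omega, Finset.mul_sum]
  exact Finset.sum_congr rfl fun i _ => by rw [Pi.smul_apply, nsmul_eq_mul]; ring

theorem character_add (ρ ρ' : σ → ℤ) (t : σ → ℂˣ) :
    character (ρ + ρ') t = character ρ t * character ρ' t := by
  simp only [character, Pi.add_apply, zpow_add, Finset.prod_mul_distrib]

/-- sections are semi-invariant -/
theorem eval_smul {c : σ → ℤ} {Φ : MvPolynomial σ ℂ} (h : C.IsSection c Φ) {t : σ → ℂˣ}
    (ht : C.InGroup t) (p : σ → ℂ) :
    eval (fun i => (t i : ℂ) * p i) Φ = (character c t : ℂ) * eval p Φ := by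
  rw [eval_eq, eval_eq, Finset.mul_sum]
  refine Finset.sum_congr rfl fun m hm => ?_
  have h1 : character (fun i => (m i : ℤ)) t = character c t := by
    have h2 := ht _ (h m hm)
    have h3 := character_add ((fun i => (m i : ℤ)) - c) c t
    rw [sub_add_cancel, h2, one_mul] at h3
    exact h3
  have h2 : ∏ i ∈ m.support, ((t i : ℂ) * p i) ^ m i
      = (character c t : ℂ) * ∏ i ∈ m.support, p i ^ m i := by
    rw [← h1, character]
    push_cast
    rw [← Finset.prod_subset (Finset.subset_univ m.support), ← Finset.prod_mul_distrib]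
    · refine Finset.prod_congr rfl fun i _ => ?_
      rw [mul_pow, zpow_natCast]
    · intro i _ hi
      rw [Finsupp.notMem_support_iff.1 hi]
      simp
  rw [h2]
  ring

theorem isSection_mul {c c' : σ → ℤ} {Φ Ψ : MvPolynomial σ ℂ} (h : C.IsSection c Φ)
    (h' : C.IsSection c' Ψ) : C.IsSection (c + c') (Φ * Ψ) := by
  classical
  intro m hm
  obtain ⟨a, ha, b, hb, rfl⟩ := Finset.mem_add.1 (support_mul Φ Ψ hm)
  have h1 : (fun i => ((a + b) i : ℤ)) - (c + c') = ((fun i => (a i : ℤ)) - c)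
      + ((fun i => (b i : ℤ)) - c') := by
    funext i
    simp only [Pi.sub_apply, Pi.add_apply, Finsupp.add_apply]
    push_cast
    ring
  have h2 : (fun i => (((a + b : σ →₀ ℕ) i : ℕ) : ℤ)) - (c + c') ∈ C.R := by
    rw [h1]
    exact C.R.add_mem (h a ha) (h' b hb)
  exact h2

theorem isSection_congr {c c' : σ → ℤ} {Φ : MvPolynomial σ ℂ} (h : C.IsSection c Φ)
    (hc : c - c' ∈ C.R) : C.IsSection c' Φ := by
  intro m hm
  have h1 := C.R.add_mem (h m hm) hc
  rwa [sub_add_sub_cancel] at h1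

theorem isSection_comb {c : σ → ℤ} {Φ Ψ : MvPolynomial σ ℂ} (h : C.IsSection c Φ)
    (h' : C.IsSection c Ψ) (a b : ℂ) :
    C.IsSection c (MvPolynomial.C a * Φ - MvPolynomial.C b * Ψ) := by
  classical
  intro m hm
  have h1 := Finset.mem_union.1 (support_sub σ _ _ hm)
  rcases h1 with h1 | h1
  · refine h m ?_
    rw [mem_support_iff, coeff_C_mul] at h1
    rw [mem_support_iff]
    exact right_ne_zero_of_mul h1
  · refine h' m ?_
    rw [mem_support_iff, coeff_C_mul] at h1
    rw [mem_support_iff]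
    exact right_ne_zero_of_mul h1

/-- Euler's identity -/
theorem euler {c : σ → ℤ} {Φ : MvPolynomial σ ℂ} (h : C.IsSection c Φ) (l : σ → ℂ)
    (hl : ∀ ρ ∈ C.R, ∑ i, (ρ i : ℂ) * l i = 0) (p : σ → ℂ) :
    derivative p (fun i => l i * p i) Φ = (∑ i, (c i : ℂ) * l i) * eval p Φ := by
  classical
  -- the derivative of a monomial
  have h1 : ∀ (m : σ →₀ ℕ) (a : ℂ), derivative p (fun i => l i * p i) (monomial m a)
      = (∑ i, (m i : ℂ) * l i) * eval p (monomial m a) := by
    intro m a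
    rw [derivative, Finset.sum_mul]
    refine Finset.sum_congr rfl fun i _ => ?_
    have h2 : eval p (pderiv i (monomial m a)) * p i = (m i : ℂ) * eval p (monomial m a) := by
      have h3 := congrArg (eval p) (X_mul_pderiv_monomial (i := i) (m := m) (r := a))
      rw [map_mul, eval_X, nsmul_eq_mul, map_mul, map_natCast] at h3
      rw [← h3]
      ring
    linear_combination l i * h2
  have h2 : ∀ (s : Finset (σ →₀ ℕ)) (f : (σ →₀ ℕ) → MvPolynomial σ ℂ),
      derivative p (fun i => l i * p i) (∑ m ∈ s, f m)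
        = ∑ m ∈ s, derivative p (fun i => l i * p i) (f m) := by
    intro s f
    simp only [derivative, map_sum, Finset.sum_mul]
    rw [Finset.sum_comm]
  conv_lhs => rw [← support_sum_monomial_coeff Φ]
  rw [h2]
  conv_rhs => rw [← support_sum_monomial_coeff Φ]
  rw [map_sum, Finset.mul_sum]
  refine Finset.sum_congr rfl fun m hm => ?_
  rw [h1]
  congr 1
  have h3 := hl _ (h m hm)
  simp only [Pi.sub_apply] at h3
  push_cast at h3
  have h4 : ∑ i, (m i : ℂ) * l i - ∑ i, (c i : ℂ) * l i = 0 := by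
    rw [← h3, ← Finset.sum_sub_distrib]
    exact Finset.sum_congr rfl fun i _ => by ring
  exact sub_eq_zero.1 h4

end

section
variable {σ : Type} [Fintype σ] {C : Cone σ} {r n : ℕ} (D : Cover C r n)

theorem cone_degree (c : σ ⊕ Fin r → ℤ) : D.cone.degree c
    = C.degree (fun i => c (Sum.inl i)) + ∑ i, (c (Sum.inr i) : ℚ) * (C.degree (D.d i) / D.e i) := by
  rw [Cone.degree, Fintype.sum_sum_type]
  rfl

theorem cone_omega (c : σ ⊕ Fin r → ℤ) : D.cone.omega c = C.omega (fun i => c (Sum.inl i)) := by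
  rw [Cone.omega, Fintype.sum_sum_type]
  have : ∑ i : Fin r, c (Sum.inr i) * D.cone.om (Sum.inr i) = 0 :=
    Finset.sum_eq_zero fun i _ => mul_zero _
  rw [this, add_zero]
  rfl

/-- the monomial in the new coordinates -/
noncomputable def monoz (σ : Type) {r : ℕ} (a : Fin r → ℕ) : MvPolynomial (σ ⊕ Fin r) ℂ :=
  ∏ i, X (Sum.inr i) ^ a i

theorem eval_monoz (a : Fin r → ℕ) (q : σ ⊕ Fin r → ℂ) :
    eval q (monoz σ a) = ∏ i, q (Sum.inr i) ^ a i := by
  simp [monoz]

theorem isSection_monoz (a : Fin r → ℕ) :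
    D.cone.IsSection (Sum.elim 0 (fun i => (a i : ℤ))) (monoz σ a) := by
  classical
  have h1 : monoz σ a = monomial (∑ i, Finsupp.single (Sum.inr i : σ ⊕ Fin r) (a i)) 1 := by
    rw [monoz, monomial_sum_one]
    exact Finset.prod_congr rfl fun i _ => by rw [X_pow_eq_monomial]
  intro m hm
  rw [h1] at hm
  have h2 := Finset.mem_singleton.1 (support_monomial_subset hm)
  rw [h2]
  have h3 : (fun j : σ ⊕ Fin r =>
      (((∑ i, Finsupp.single (Sum.inr i : σ ⊕ Fin r) (a i) : σ ⊕ Fin r →₀ ℕ) j : ℕ) : ℤ))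
      - (Sum.elim (0 : σ → ℤ) (fun i => (a i : ℤ)) : σ ⊕ Fin r → ℤ) = (0 : σ ⊕ Fin r → ℤ) := by
    funext j
    rw [Pi.sub_apply, Finsupp.finsetSum_apply]
    rcases j with j | j
    · rw [Finset.sum_eq_zero fun i _ => by rw [Finsupp.single_apply, if_neg (by simp)]]
      simp
    · rw [Finset.sum_eq_single j]
      · simp
      · intro i _ hi
        rw [Finsupp.single_apply, if_neg (by simpa using hi)]
      · intro h
        exact absurd (Finset.mem_univ j) h
  rw [h3]
  exact D.cone.R.zero_mem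

theorem isSection_rename {c : σ → ℤ} {Ψ : MvPolynomial σ ℂ} (h : C.IsSection c Ψ) :
    D.cone.IsSection (Sum.elim c 0) (rename Sum.inl Ψ) := by
  classical
  intro m hm
  rw [support_rename_of_injective Sum.inl_injective, Finset.mem_image] at hm
  obtain ⟨m', hm', rfl⟩ := hm
  have h1 : (fun j : σ ⊕ Fin r => ((m'.mapDomain Sum.inl j : ℕ) : ℤ)) - Sum.elim c 0
      = Sum.elim ((fun i => (m' i : ℤ)) - c) 0 := by
    funext j
    rcases j with j | j
    · rw [Pi.sub_apply, Sum.elim_inl, Sum.elim_inl, Finsupp.mapDomain_apply Sum.inl_injective]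
      rfl
    · rw [Pi.sub_apply, Sum.elim_inr, Sum.elim_inr, Finsupp.mapDomain_of_notMem_range]
      · simp
      · rintro ⟨i, hi⟩
        exact absurd hi (by simp)
  rw [h1]
  exact (D.res _).2 (h m' hm')

/-- the sections of a class on the cover -/
theorem sec_of_flat {M : ℕ} (homR : ∀ ρ ∈ D.R, D.cone.omega ρ = 0) {κ : ℤ} {c : σ ⊕ Fin r → ℤ}
    (hom : D.cone.omega c = 1) {x₁ : ℤ}
    (hx : (x₁ : ℚ) = M * C.degree ((fun i => c (Sum.inl i)) - C.K) + κ) {L : ℤ} {a : Fin r → ℕ}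
    (hf : ((x₁ - L, fun i => c (Sum.inr i) - (a i : ℤ)) : ℤ × (Fin r → ℤ)) ∈ flat D M) :
    ∃ c₁ : σ → ℤ, C.omega c₁ = 1 ∧ (M : ℚ) * C.degree (c₁ - C.K) = L - κ ∧
      ∀ Ψ, C.IsSection c₁ Ψ → D.cone.IsSection c (monoz σ a * rename Sum.inl Ψ) := by
  obtain ⟨ρ, hρ, h1, h2⟩ := hf
  refine ⟨(fun i => c (Sum.inl i)) - fun i => ρ (Sum.inl i), ?_, ?_, ?_⟩
  · have h3 := homR ρ hρ
    rw [cone_omega] at h3 hom
    rw [omega_sub, hom, h3]
    norm_num
  · have h3 : (fun i => c (Sum.inl i)) - (fun i => ρ (Sum.inl i)) - C.K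
        = ((fun i => c (Sum.inl i)) - C.K) - fun i => ρ (Sum.inl i) := by
      rw [sub_right_comm]
    rw [h3, degree_sub, mul_sub, h1]
    simp only
    push_cast
    rw [hx]
    ring
  · intro Ψ hΨ
    refine isSection_congr (isSection_mul (isSection_monoz D a) (isSection_rename D hΨ)) ?_
    have h3 : (Sum.elim 0 (fun i => (a i : ℤ)) : σ ⊕ Fin r → ℤ)
        + Sum.elim ((fun i => c (Sum.inl i)) - fun i => ρ (Sum.inl i)) 0 - c = -ρ := by
      funext j
      rcases j with j | j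
      · simp only [Pi.sub_apply, Pi.add_apply, Sum.elim_inl, Pi.zero_apply, Pi.neg_apply]
        ring
      · have h4 := congrFun h2 j
        simp only at h4
        simp only [Pi.sub_apply, Pi.add_apply, Sum.elim_inr, Pi.zero_apply, Pi.neg_apply]
        rw [h4]
        ring
    rw [h3]
    exact D.R.neg_mem hρ

theorem eval_ren (q : σ ⊕ Fin r → ℂ) (Ψ : MvPolynomial σ ℂ) :
    eval q (rename Sum.inl Ψ) = eval (fun i => q (Sum.inl i)) Ψ := by
  rw [eval_rename]
  rfl

theorem eval_sec (a : Fin r → ℕ) (q : σ ⊕ Fin r → ℂ) (Ψ : MvPolynomial σ ℂ) :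
    eval q (monoz σ a * rename Sum.inl Ψ)
      = (∏ i, q (Sum.inr i) ^ a i) * eval (fun i => q (Sum.inl i)) Ψ := by
  rw [map_mul, eval_monoz, eval_ren]

theorem deriv_sec (a : Fin r → ℕ) (q v : σ ⊕ Fin r → ℂ) (Ψ : MvPolynomial σ ℂ) :
    derivative q v (monoz σ a * rename Sum.inl Ψ)
      = derivative q v (monoz σ a) * eval (fun i => q (Sum.inl i)) Ψ
        + (∏ i, q (Sum.inr i) ^ a i)
          * derivative (fun i => q (Sum.inl i)) (fun i => v (Sum.inl i)) Ψ := by
  classical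
  have h1 : ∀ (p u : σ ⊕ Fin r → ℂ) (Φ : MvPolynomial (σ ⊕ Fin r) ℂ),
      derivative p u Φ = FU.dd p u Φ := fun _ _ _ => rfl
  have h2 : ∀ (p u : σ → ℂ) (Φ : MvPolynomial σ ℂ), derivative p u Φ = FU.dd p u Φ :=
    fun _ _ _ => rfl
  rw [h1, FU.dd_mul, eval_ren, eval_monoz, FU.dd_rename, h1, h2]
  rfl

/-- additive functions on `R` -/
theorem hom_zero (φ : (σ ⊕ Fin r → ℤ) →+ ℂ) (h1 : ∀ ρ ∈ C.R, φ (Sum.elim ρ 0) = 0)
    (h2 : ∀ i, φ (Sum.elim (-(D.d i)) (Pi.single i (D.e i : ℤ))) = 0) :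
    ∀ ρ ∈ D.R, φ ρ = 0 := by
  classical
  intro ρ hρ
  have he : ∀ i, D.e i ≠ 0 := fun i => by have := D.two i; omega
  set E : ℕ := ∏ i, D.e i with hE
  have hE0 : E ≠ 0 := Finset.prod_ne_zero_iff.2 fun i _ => he i
  set ρ' : σ ⊕ Fin r → ℤ := E • ρ - ∑ i, (ρ (Sum.inr i) * ((E / D.e i : ℕ) : ℤ)) •
    (Sum.elim (-(D.d i)) (Pi.single i (D.e i : ℤ)) : σ ⊕ Fin r → ℤ) with hρ'
  have hρ'R : ρ' ∈ D.R :=
    D.R.sub_mem (D.R.nsmul_mem hρ _) (D.R.sum_mem fun i _ => D.R.zsmul_mem (D.rel i) _)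
  have hz : ∀ j, ρ' (Sum.inr j) = 0 := by
    intro j
    rw [hρ', Pi.sub_apply, Finset.sum_apply, Finset.sum_eq_single j]
    · simp only [Pi.smul_apply, Sum.elim_inr, Pi.single_eq_same, smul_eq_mul, nsmul_eq_mul]
      have h3 : ((E / D.e j : ℕ) : ℤ) * D.e j = E := by
        exact_mod_cast Nat.div_mul_cancel (Finset.dvd_prod_of_mem D.e (Finset.mem_univ j))
      linear_combination -(ρ (Sum.inr j)) * h3
    · intro i _ hi
      simp [hi.symm]
    · intro h3
      exact absurd (Finset.mem_univ j) h3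
  have hsplit : ρ' = Sum.elim (fun i => ρ' (Sum.inl i)) 0 := by
    funext j
    rcases j with j | j
    · rfl
    · exact hz j
  have h3 : φ ρ' = 0 := by
    rw [hsplit]
    refine h1 _ ((D.res _).1 ?_)
    rw [← hsplit]
    exact hρ'R
  rw [hρ', map_sub, map_nsmul, map_sum] at h3
  rw [Finset.sum_eq_zero fun i _ => by rw [map_zsmul, h2 i, smul_zero], sub_zero,
    nsmul_eq_mul] at h3
  exact (mul_eq_zero.1 h3).resolve_left (by exact_mod_cast hE0)

end

end Pool.Agent.K3h47.TW
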