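import Pool.Agent.K3h47.TW.Arith

/-! The induction step: branched covers. -/

set_option autoImplicit false
set_option linter.unusedSectionVars false

namespace Pool.Agent.K3h47.TW

open MvPolynomial

section
variable {σ : Type} [Fintype σ] {C : Cone σ} {r n : ℕ} (D : Cover C r n) {κ : ℤ}

theorem eval_comb {τ : Type} (x : τ → ℂ) (a b : ℂ) (Φ Ψ : MvPolynomial τ ℂ) :
    eval x (MvPolynomial.C a * Φ - MvPolynomial.C b * Ψ) = a * eval x Φ - b * eval x Ψ := by
  simp only [map_sub, map_mul, eval_C]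

theorem prod_ne {z : Fin r → ℂ} {a : Fin r → ℕ} (ha : ∀ i, z i = 0 → a i = 0) :
    ∏ i, z i ^ a i ≠ 0 := by
  refine Finset.prod_ne_zero_iff.2 fun i _ => ?_
  by_cases hi : z i = 0
  · rw [ha i hi, pow_zero]
    exact one_ne_zero
  · exact pow_ne_zero _ hi

/-- at most `n` of the new coordinates vanish -/
theorem few_z {q : σ ⊕ Fin r → ℂ} (hq : q ∈ D.cone.pt) :
    (Finset.univ.filter (fun i : Fin r => q (Sum.inr i) = 0)).card ≤ n := by
  refine le_trans (Finset.card_le_card fun i hi => ?_) (D.few _ hq.1)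
  rw [Finset.mem_filter] at hi ⊢
  refine ⟨hi.1, ?_⟩
  rw [← hq.2 i, hi.2, zero_pow (by have := D.two i; omega)]

theorem rel_char {t : σ → ℂˣ} {s : Fin r → ℂˣ} (hts : D.cone.InGroup (Sum.elim t s)) (i : Fin r) :
    (s i) ^ D.e i = character (D.d i) t := by
  classical
  have h1 := hts _ (D.rel i)
  rw [character, Fintype.prod_sum_type] at h1
  have h2 : ∏ j : Fin r, (Sum.elim t s) (Sum.inr j) ^
      ((Sum.elim (-(D.d i)) (Pi.single i (D.e i : ℤ)) : σ ⊕ Fin r → ℤ) (Sum.inr j))
      = s i ^ D.e i := by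
    rw [Finset.prod_eq_single i]
    · simp only [Sum.elim_inr, Pi.single_eq_same]
      rw [zpow_natCast]
    · intro j _ hj
      simp only [Sum.elim_inr]
      rw [Pi.single_eq_of_ne hj, zpow_zero]
    · intro h3
      exact absurd (Finset.mem_univ i) h3
  have h3 : ∏ j : σ, (Sum.elim t s) (Sum.inl j) ^
      ((Sum.elim (-(D.d i)) (Pi.single i (D.e i : ℤ)) : σ ⊕ Fin r → ℤ) (Sum.inl j))
      = (character (D.d i) t)⁻¹ := by
    rw [character, ← Finset.prod_inv_distrib]
    refine Finset.prod_congr rfl fun j _ => ?_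
    simp only [Sum.elim_inl, Pi.neg_apply, zpow_neg]
  rw [h2, h3, inv_mul_eq_one] at h1
  exact h1.symm

/-- the restriction of a group element -/
theorem inGroup_res {t : σ ⊕ Fin r → ℂˣ} (ht : D.cone.InGroup t) :
    C.InGroup (fun i => t (Sum.inl i)) := by
  intro ρ hρ
  have h1 := ht _ ((D.res ρ).2 hρ)
  rw [character, Fintype.prod_sum_type] at h1
  simp only [Sum.elim_inl, Sum.elim_inr, Pi.zero_apply, zpow_zero, Finset.prod_const_one,
    mul_one] at h1
  exact h1

/-- the induction step -/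
theorem step_gen (hLIFT : S_LIFT) (hFIB : S_FIBRE) (hDAT : S_DAT) (hC : Inv κ C) (κ' : ℤ)
    (hA : ∀ (M : ℕ) (δ : Fin r → ℕ), M ≠ 0 → (∀ i, (δ i : ℚ) = M * C.degree (D.d i)) →
      (∀ c : σ → ℤ, ∃ x : ℤ, (M : ℚ) * C.degree c = x) → FU.Dat (flat D M) δ D.e n →
      ∃ M' : ℕ, M' ≠ 0 ∧ (∀ j, D.e j ∣ M' * δ j) ∧ ∀ cf : ℤ × (Fin r → ℤ),
        ((-κ' : ℚ) ≤ M' * FU.bet δ D.e cf - M' * κ → Facts0 (flat D M) n cf) ∧
        ((1 - κ' : ℚ) ≤ M' * FU.bet δ D.e cf - M' * κ → Facts1 (flat D M) D.e n cf)) :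
    Inv κ' D.cone := by
  classical
  obtain ⟨M, hM, hq, hmain⟩ := hC.main
  obtain ⟨hdegR, homR, δ, hδ, h⟩ := hDAT σ C r n D M hM hC.degR hC.omR hq
  have he : ∀ i, D.e i ≠ 0 := fun i => by have := D.two i; omega
  have hMQ : (0 : ℚ) < M := by exact_mod_cast Nat.pos_of_ne_zero hM
  -- the degree of an integral class is an integer
  have hint : ∀ c : σ → ℤ, ∃ x : ℤ, (M : ℚ) * C.degree c = x := by
    intro c
    choose q hq using hq
    refine ⟨∑ i, c i * q i, ?_⟩
    rw [Cone.degree, Finset.mul_sum, Int.cast_sum]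
    refine Finset.sum_congr rfl fun i _ => ?_
    rw [Int.cast_mul, ← hq i]
    ring
  obtain ⟨M', hM', hd, hfacts⟩ := hA M δ hM hδ hint h
  refine ⟨hdegR, homR, ?_, M' * M, Nat.mul_ne_zero hM' hM, ?_, ?_⟩
  · rw [cone_omega]
    exact hC.omK
  · rintro (i | i)
    · obtain ⟨q, hq⟩ := hq i
      refine ⟨M' * q, ?_⟩
      change ((M' * M : ℕ) : ℚ) * C.deg i = _
      push_cast
      rw [← hq]
      ring
    · obtain ⟨w, hw⟩ := hd i
      refine ⟨w, ?_⟩
      change ((M' * M : ℕ) : ℚ) * (C.degree (D.d i) / D.e i) = _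
      have h1 : (M' : ℚ) * δ i = D.e i * w := by exact_mod_cast hw
      have h2 : (D.e i : ℚ) ≠ 0 := by exact_mod_cast he i
      rw [hδ i] at h1
      push_cast
      field_simp
      linear_combination h1
  intro c hom
  obtain ⟨x, hx⟩ := hint ((fun i => c (Sum.inl i)) - C.K)
  obtain ⟨x₁, hx₁⟩ : ∃ x₁ : ℤ, x₁ = x + κ := ⟨_, rfl⟩
  have hx₁' : (x₁ : ℚ) = M * C.degree ((fun i => c (Sum.inl i)) - C.K) + κ := by
    rw [hx₁, hx]
    push_cast
    ring
  obtain ⟨cf, hcf⟩ : ∃ cf : ℤ × (Fin r → ℤ), cf = (x₁, fun i => c (Sum.inr i)) := ⟨_, rfl⟩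
  -- the degree
  have hbet : (M' : ℚ) * FU.bet δ D.e cf = ((M' * M : ℕ) : ℚ) * D.cone.degree (c - D.cone.K)
      + M' * κ := by
    have h1 : D.cone.degree (c - D.cone.K) = C.degree ((fun i => c (Sum.inl i)) - C.K)
        + ∑ i, ((c (Sum.inr i) : ℚ) - (D.e i - 1)) * (C.degree (D.d i) / D.e i) := by
      rw [cone_degree]
      congr 1
      refine Finset.sum_congr rfl fun i _ => ?_
      have h2 : (c - D.cone.K) (Sum.inr i) = c (Sum.inr i) - ((D.e i : ℤ) - 1) := rfl
      rw [h2]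
      push_cast
      ring
    have h2 : FU.bet δ D.e cf = x₁
        + M * ∑ i, ((c (Sum.inr i) : ℚ) - (D.e i - 1)) * (C.degree (D.d i) / D.e i) := by
      rw [FU.bet, hcf]
      simp only
      congr 1
      rw [Finset.mul_sum]
      refine Finset.sum_congr rfl fun i _ => ?_
      rw [hδ i]
      ring
    rw [h1, h2, hx₁']
    push_cast
    ring
  have hadd : ∀ (L : ℤ) (a : Fin r → ℕ),
      ((cf.1 - L, fun i => cf.2 i - (a i : ℤ)) : ℤ × (Fin r → ℤ)) ∈ flat D M →
      ∃ c₁ : σ → ℤ, C.omega c₁ = 1 ∧ (M : ℚ) * C.degree (c₁ - C.K) = L - κ ∧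
        ∀ Ψ, C.IsSection c₁ Ψ → D.cone.IsSection c (monoz σ a * rename Sum.inl Ψ) := by
    intro L a hf
    rw [hcf] at hf
    exact sec_of_flat D homR hom hx₁' hf
  -- sections which do not vanish at a point
  have hfree : ∀ (L : ℤ) (a : Fin r → ℕ), 0 ≤ L →
      ((cf.1 - L, fun i => cf.2 i - (a i : ℤ)) : ℤ × (Fin r → ℤ)) ∈ flat D M →
      ∀ p ∈ C.pt, ∃ Ψ, eval p Ψ ≠ 0 ∧ D.cone.IsSection c (monoz σ a * rename Sum.inl Ψ) := by
    intro L a hL hf p hp
    obtain ⟨c₁, h1, h2, h3⟩ := hadd L a hf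
    have hLq : (0 : ℚ) ≤ L := by exact_mod_cast hL
    obtain ⟨Ψ, h4, h5⟩ := (hmain c₁ h1).1 (by rw [h2]; linarith) p hp
    exact ⟨Ψ, h5, h3 Ψ h4⟩
  have hva : ∀ (L : ℤ) (a : Fin r → ℕ), 1 ≤ L →
      ((cf.1 - L, fun i => cf.2 i - (a i : ℤ)) : ℤ × (Fin r → ℤ)) ∈ flat D M →
      ∃ c₁, C.VeryAmple c₁ ∧
        ∀ Ψ, C.IsSection c₁ Ψ → D.cone.IsSection c (monoz σ a * rename Sum.inl Ψ) := by
    intro L a hL hf
    obtain ⟨c₁, h1, h2, h3⟩ := hadd L a hf
    have hLq : (1 : ℚ) ≤ L := by exact_mod_cast hL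
    exact ⟨c₁, (hmain c₁ h1).2 (by rw [h2]; linarith), h3⟩
  have hFree : (-κ' : ℚ) ≤ ((M' * M : ℕ) : ℚ) * D.cone.degree (c - D.cone.K) → D.cone.Free c := by
    intro hB q hqp
    have hA0 := (hfacts cf).1 (by rw [hbet]; linarith)
    obtain ⟨L, a, hL, ha, hf⟩ := hA0.f0 _ (few_z D hqp)
    obtain ⟨Ψ, hΨ, hs⟩ := hfree L a hL hf _ hqp.1
    refine ⟨_, hs, ?_⟩
    rw [eval_sec]
    exact mul_ne_zero (prod_ne fun i hi => ha i (by simp [hi])) hΨ
  refine ⟨hFree, fun hV => ?_⟩
  have hA1 := (hfacts cf).2 (by rw [hbet]; linarith)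
  refine ⟨hFree (by linarith), ?_, ?_⟩
  · -- separation of points
    intro q hqp q' hqp' hne
    have hI' := few_z D hqp'
    by_cases hpp : ∃ t, C.InGroup t ∧ ∀ i, q' (Sum.inl i) = t i * q (Sum.inl i)
    · obtain ⟨t, ht, hqt⟩ := hpp
      obtain ⟨s, hts⟩ := hLIFT σ C r n D t ht
      by_contra hcon
      push Not at hcon
      obtain ⟨w, hw⟩ : ∃ w : Fin r → ℂ, ∀ i, w i = s i * q (Sum.inr i) := ⟨_, fun i => rfl⟩
      have hp' : (fun i => q' (Sum.inl i)) = fun i => (t i : ℂ) * q (Sum.inl i) := funext hqt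
      have hwe : ∀ i, w i ^ D.e i = q' (Sum.inr i) ^ D.e i := by
        intro i
        rw [hw i, mul_pow, hqp.2 i, hqp'.2 i, hp', eval_smul (D.sec i) ht]
        congr 1
        have h1 := congrArg Units.val (rel_char D hts i)
        simpa using h1
      have hset : Finset.univ.filter (fun i => w i = 0)
          = Finset.univ.filter (fun i : Fin r => q' (Sum.inr i) = 0) := by
        ext i
        simp only [Finset.mem_filter, Finset.mem_univ, true_and]
        rw [← pow_eq_zero_iff (he i), hwe i, pow_eq_zero_iff (he i)]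
      -- the intermediate point
      have hmid : ∀ Φ, D.cone.IsSection c Φ →
          eval (Sum.elim (fun i => q' (Sum.inl i)) w) Φ = 0 → eval q' Φ = 0 := by
        intro Φ hΦ h0
        refine hcon Φ hΦ ?_
        have h1 := eval_smul hΦ hts q
        have h2 : (fun i => ((Sum.elim t s : σ ⊕ Fin r → ℂˣ) i : ℂ) * q i)
            = Sum.elim (fun i => q' (Sum.inl i)) w := by
          funext i
          rcases i with i | i
          · simp only [Sum.elim_inl]
            rw [hqt i]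
          · simp only [Sum.elim_inr]
            rw [hw i]
        rw [h2, h0] at h1
        exact (mul_eq_zero.1 h1.symm).resolve_left (Units.ne_zero _)
      obtain ⟨t', ht', hzt⟩ := hFIB r (flat D M) δ D.e n h cf w (fun i => q' (Sum.inr i))
        (fun i => (hwe i).symm) (by rw [hset]; exact hI')
        (by
          rw [hset]
          exact fun Γ hΓ => hA1.f3 _ hI' Γ hΓ)
        (by
          rintro y y' ⟨hy, L, hL, hf⟩ ⟨hy', L', hL', hf'⟩
          obtain ⟨Ψ, hΨ, hs⟩ := hfree L _ hL hf _ hqp'.1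
          obtain ⟨Ψ', hΨ', hs'⟩ := hfree L' _ hL' hf' _ hqp'.1
          have h1 := hmid _ (isSection_comb hs hs'
            (eval (Sum.elim (fun i => q' (Sum.inl i)) w) (monoz σ (FU.aOf y') * rename Sum.inl Ψ'))
            (eval (Sum.elim (fun i => q' (Sum.inl i)) w) (monoz σ (FU.aOf y) * rename Sum.inl Ψ)))
            (by
              rw [eval_comb]
              ring)
          rw [eval_comb, eval_sec, eval_sec, eval_sec, eval_sec] at h1
          simp only [Sum.elim_inl, Sum.elim_inr] at h1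
          have h2 : eval (fun i => q' (Sum.inl i)) Ψ * eval (fun i => q' (Sum.inl i)) Ψ' ≠ 0 :=
            mul_ne_zero hΨ hΨ'
          refine mul_right_cancel₀ h2 ?_
          linear_combination -h1)
      apply hne
      refine ⟨Sum.elim t (fun i => t' i * s i), ?_, ?_⟩
      · intro ρ hρ
        have h1 := hts ρ hρ
        obtain ⟨x, hx⟩ := hint (fun i => ρ (Sum.inl i))
        have h2 := ht' (x, fun i => ρ (Sum.inr i)) ⟨ρ, hρ, hx, rfl⟩
        rw [FU.chi, one_zpow, one_mul] at h2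
        rw [character, Fintype.prod_sum_type] at h1 ⊢
        simp only [Sum.elim_inl, Sum.elim_inr] at h1 ⊢
        simp only [mul_zpow, Finset.prod_mul_distrib]
        rw [h2, one_mul]
        exact h1
      · rintro (i | i)
        · exact hqt i
        · have h1 : q' (Sum.inr i) = (t' i : ℂ) * w i := hzt i
          rw [h1, hw i]
          simp only [Sum.elim_inr]
          push_cast
          ring
    · obtain ⟨L, a, hL, ha, hf⟩ := hA1.f1 _ hI'
      obtain ⟨c₁, hc₁, hs⟩ := hva L a hL hf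
      obtain ⟨Ψ, h1, h2, h3⟩ := hc₁.2.1 _ hqp.1 _ hqp'.1 hpp
      refine ⟨_, hs Ψ h1, ?_, ?_⟩
      · rw [eval_sec, h2, mul_zero]
      · rw [eval_sec]
        exact mul_ne_zero (prod_ne fun i hi => ha i (by simp [hi])) h3
  · -- separation of tangent vectors
    intro q hqp v hv hne
    have hI := few_z D hqp
    by_cases hl : ∃ l : σ → ℂ, (∀ ρ ∈ C.R, ∑ i, (ρ i : ℂ) * l i = 0) ∧
        ∀ i, v (Sum.inl i) = l i * q (Sum.inl i)
    · obtain ⟨l, hl1, hl2⟩ := hl
      obtain ⟨μ, hμ⟩ : ∃ μ : Fin r → ℂ, ∀ i, μ i = (∑ j, (D.d i j : ℂ) * l j) / D.e i :=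
        ⟨_, fun i => rfl⟩
      have heC : ∀ i, (D.e i : ℂ) ≠ 0 := fun i => by exact_mod_cast he i
      have hLie : ∀ ρ ∈ D.R, ∑ i, (ρ i : ℂ) * (Sum.elim l μ : σ ⊕ Fin r → ℂ) i = 0 := by
        let φ : (σ ⊕ Fin r → ℤ) →+ ℂ :=
          { toFun := fun ρ => ∑ i, (ρ i : ℂ) * (Sum.elim l μ : σ ⊕ Fin r → ℂ) i
            map_zero' := by simp
            map_add' := fun a b => by
              rw [← Finset.sum_add_distrib]
              refine Finset.sum_congr rfl fun i _ => ?_
              rw [Pi.add_apply]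
              push_cast
              ring }
        refine hom_zero D φ ?_ ?_
        · intro ρ hρ
          change ∑ i, (((Sum.elim ρ 0 : σ ⊕ Fin r → ℤ) i : ℤ) : ℂ)
            * (Sum.elim l μ : σ ⊕ Fin r → ℂ) i = 0
          rw [Fintype.sum_sum_type]
          simp only [Sum.elim_inl, Sum.elim_inr, Pi.zero_apply, Int.cast_zero, zero_mul,
            Finset.sum_const_zero, add_zero]
          exact hl1 ρ hρ
        · intro i
          change ∑ j, (((Sum.elim (-(D.d i)) (Pi.single i (D.e i : ℤ)) : σ ⊕ Fin r → ℤ) j : ℤ) : ℂ)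
            * (Sum.elim l μ : σ ⊕ Fin r → ℂ) j = 0
          rw [Fintype.sum_sum_type]
          simp only [Sum.elim_inl, Sum.elim_inr]
          rw [Finset.sum_eq_single (s := (Finset.univ : Finset (Fin r))) i]
          · rw [Pi.single_eq_same, hμ i]
            have h1 : ∑ j, (((-(D.d i)) j : ℤ) : ℂ) * l j = -∑ j, (D.d i j : ℂ) * l j := by
              rw [← Finset.sum_neg_distrib]
              refine Finset.sum_congr rfl fun j _ => ?_
              rw [Pi.neg_apply]
              push_cast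
              ring
            rw [h1]
            have h2 := heC i
            push_cast
            field_simp
            ring
          · intro j _ hj
            rw [Pi.single_eq_of_ne hj]
            simp
          · intro h3
            exact absurd (Finset.mem_univ i) h3
      obtain ⟨i₀, hi₀⟩ : ∃ i, v (Sum.inr i) ≠ μ i * q (Sum.inr i) := by
        by_contra hcon
        push Not at hcon
        refine hne ⟨Sum.elim l μ, hLie, ?_⟩
        rintro (i | i)
        · exact hl2 i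
        · exact hcon i
      have hvl : (fun i => v (Sum.inl i)) = fun i => l i * q (Sum.inl i) := funext hl2
      have hz0 : q (Sum.inr i₀) = 0 := by
        by_contra h0
        apply hi₀
        have h1 := hv.2 i₀
        rw [hvl, euler (D.sec i₀) l hl1, ← hqp.2 i₀] at h1
        have h3 : D.e i₀ = D.e i₀ - 1 + 1 := by have := D.two i₀; omega
        have h4 : q (Sum.inr i₀) ^ D.e i₀ = q (Sum.inr i₀) ^ (D.e i₀ - 1) * q (Sum.inr i₀) := by
          rw [← pow_succ, ← h3]
        rw [h4] at h1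
        have h6 : q (Sum.inr i₀) ^ (D.e i₀ - 1) ≠ 0 := pow_ne_zero _ h0
        have h7 : (D.e i₀ : ℂ) * v (Sum.inr i₀) = (∑ j, (D.d i₀ j : ℂ) * l j) * q (Sum.inr i₀) := by
          refine mul_left_cancel₀ h6 ?_
          linear_combination h1
        rw [hμ i₀]
        have h5 := heC i₀
        field_simp
        linear_combination h7
      have hv0 : v (Sum.inr i₀) ≠ 0 := by
        rw [hz0, mul_zero] at hi₀
        exact hi₀
      obtain ⟨L, a, hL, ha1, ha0, hf⟩ := hA1.f2 _ hI i₀ (by simp [hz0])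
      obtain ⟨Ψ, hΨ, hs⟩ := hfree L a hL hf _ hqp.1
      set a' : Fin r → ℕ := Function.update a i₀ 0 with ha'
      have hmono : monoz σ a = X (Sum.inr i₀) * monoz σ a' := by
        rw [monoz, monoz, ← Finset.mul_prod_erase _ _ (Finset.mem_univ i₀), ha1, pow_one,
          ← Finset.mul_prod_erase _ _ (Finset.mem_univ i₀)]
        rw [ha', Function.update_self, pow_zero, one_mul]
        congr 1
        refine Finset.prod_congr rfl fun i hi => ?_
        rw [Function.update_of_ne (Finset.ne_of_mem_erase hi)]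
      have hzero : ∏ i, q (Sum.inr i) ^ a i = 0 := by
        refine Finset.prod_eq_zero (Finset.mem_univ i₀) ?_
        rw [hz0, ha1, pow_one]
      refine ⟨_, hs, ?_, ?_⟩
      · rw [eval_sec, hzero, zero_mul]
      · rw [deriv_sec, hzero, zero_mul, add_zero]
        refine mul_ne_zero ?_ hΨ
        have h1 : derivative q v (monoz σ a) = v (Sum.inr i₀) * ∏ i, q (Sum.inr i) ^ a' i := by
          have h2 : derivative q v (monoz σ a) = FU.dd q v (monoz σ a) := rfl
          rw [h2, hmono, FU.dd_mul, FU.dd_X, eval_X, hz0, zero_mul, add_zero, eval_monoz]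
        rw [h1]
        refine mul_ne_zero hv0 (prod_ne fun i hi => ?_)
        by_cases hii : i = i₀
        · rw [hii, ha', Function.update_self]
        · rw [ha', Function.update_of_ne hii]
          exact ha0 i (by simp [hi]) hii
    · obtain ⟨L, a, hL, ha, hf⟩ := hA1.f1 _ hI
      obtain ⟨c₁, hc₁, hs⟩ := hva L a hL hf
      obtain ⟨Ψ, h1, h2, h3⟩ := hc₁.2.2 _ hqp.1 _ hv.1 hl
      refine ⟨_, hs Ψ h1, ?_, ?_⟩
      · rw [eval_sec, h2, mul_zero]
      · rw [deriv_sec, h2, mul_zero, zero_add]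
        exact mul_ne_zero (prod_ne fun i hi => ha i (by simp [hi])) h3

/-- branched covers -/
theorem step (hLIFT : S_LIFT) (hFIB : S_FIBRE) (hDAT : S_DAT) (hC : Inv κ C)
    (hκ : -(n : ℤ) ≤ κ) : Inv κ D.cone := by
  refine step_gen D hLIFT hFIB hDAT hC κ fun M δ _ _ _ h => ?_
  obtain ⟨M', hM', hd, hF⟩ := h.exists_M
  have hMQ' : (1 : ℚ) ≤ M' := by exact_mod_cast Nat.one_le_iff_ne_zero.2 hM'
  have hκq : -(n : ℚ) ≤ κ := by exact_mod_cast hκ
  have hκM : 0 ≤ ((n : ℚ) + κ) * (M' - 1) := mul_nonneg (by linarith) (by linarith)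
  exact ⟨M', hM', hd, fun cf => ⟨fun hβ => facts0_gen h hM' hd hF cf (by linarith),
    fun hβ => facts1_gen h hM' hd hF cf (by linarith)⟩⟩

/-- branched covers for which the bound gets better -/
theorem step_up (hLIFT : S_LIFT) (hFIB : S_FIBRE) (hDAT : S_DAT) (hC : Inv κ C)
    (hn : 1 ≤ n) (hr : 0 < r)
    (hκ : -(n : ℤ) < κ ∨ r ≤ n ∨ ∀ i, ∃ c : σ → ℤ, C.degree c = C.degree (D.d i) / D.e i) :
    Inv (κ + 1) D.cone := by
  refine step_gen D hLIFT hFIB hDAT hC (κ + 1) fun M δ hM hδ hint h => ?_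
  obtain ⟨M', hM', hd, hF⟩ := h.exists_M
  by_cases h1 : ∀ j, D.e j ∣ δ j
  · refine ⟨1, one_ne_zero, fun j => by rw [one_mul]; exact h1 j, fun cf => ⟨fun hβ => ?_,
      fun hβ => ?_⟩⟩
    · refine facts0_one h h1 hn hr cf ?_
      push_cast at hβ
      linarith
    · refine facts1_one h h1 hn hr cf ?_
      push_cast at hβ
      linarith
  · have hM1 : M' ≠ 1 := by
      rintro rfl
      exact h1 fun j => by simpa using hd j
    have hκ' : -(n : ℤ) < κ := by
      rcases hκ with hκ | hκ | hκ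
      · exact hκ
      · exfalso
        obtain ⟨p, hp, hpM⟩ := Nat.exists_prime_and_dvd hM1
        have h2 := hF p hp hpM
        have h3 := Finset.card_le_univ
          (Finset.univ.filter (fun j => p ^ M'.factorization p ∣ D.e j))
        rw [Fintype.card_fin] at h3
        omega
      · exfalso
        apply h1
        intro j
        obtain ⟨c, hc⟩ := hκ j
        obtain ⟨x, hx⟩ := hint c
        have he : (D.e j : ℚ) ≠ 0 := by
          have := D.two j
          exact_mod_cast (show D.e j ≠ 0 by omega)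
        have h2 : (δ j : ℚ) = D.e j * x := by
          rw [hδ j, ← hx, hc]
          field_simp
        have h3 : (δ j : ℤ) = D.e j * x := by exact_mod_cast h2
        exact Int.natCast_dvd_natCast.1 ⟨x, h3⟩
    have hMQ' : (2 : ℚ) ≤ M' := by
      exact_mod_cast (show 2 ≤ M' by omega)
    have hκq : -(n : ℚ) + 1 ≤ κ := by
      have : -(n : ℤ) + 1 ≤ κ := by omega
      exact_mod_cast this
    have hκM : 0 ≤ ((n : ℚ) + κ - 1) * (M' - 1) := mul_nonneg (by linarith) (by linarith)
    refine ⟨M', hM', hd, fun cf => ⟨fun hβ => facts0_gen h hM' hd hF cf ?_,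
      fun hβ => facts1_gen h hM' hd hF cf ?_⟩⟩
    · push_cast at hβ
      linarith
    · push_cast at hβ
      linarith

end

end Pool.Agent.K3h47.TW
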